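import Mathlib

/-!
A partial cube without an interval edge-colouring.

The vertices are the faces of a one-dimensional simplicial complex on the `64` cells of an
`8 × 8` board: the empty face, the `64` singletons and the pairs of cells lying in a common
row or column. Two faces are adjacent when their symmetric difference is a singleton. The
family is closed under taking subsets, so the graph is an isometric subgraph of the hypercube.
In an interval edge-colouring the colours of the `64` edges at the empty face would lie within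
`58` of each other, which is impossible.
-/

set_option autoImplicit false

namespace Pool.Agent.H68.PC

abbrev I := Fin 8 × Fin 8

def P (S : Finset I) : Prop := ∃ i j : I, S ⊆ {i, j} ∧ (i.1 = j.1 ∨ i.2 = j.2)

instance : DecidablePred P := fun S => by unfold P; infer_instance

lemma P.mono {S T : Finset I} (h : S ⊆ T) (hT : P T) : P S := by
  obtain ⟨i, j, hij, h'⟩ := hT
  exact ⟨i, j, h.trans hij, h'⟩

lemma P_empty : P ∅ := ⟨(0, 0), (0, 0), by simp, Or.inl rfl⟩

lemma P_single (i : I) : P {i} := ⟨i, i, by simp, Or.inl rfl⟩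

lemma P_pair {i j : I} (h : i.1 = j.1 ∨ i.2 = j.2) : P {i, j} := ⟨i, j, le_rfl, h⟩

abbrev V := {S : Finset I // P S}

/-- subgraph of the hypercube induced by the family `P` -/
def G : SimpleGraph V where
  Adj S T := (symmDiff S.1 T.1).card = 1
  symm := ⟨fun S T h => by rwa [symmDiff_comm]⟩
  loopless := ⟨fun S h => by simp at h⟩

lemma card_triangle (A B C : Finset I) :
    (symmDiff A C).card ≤ (symmDiff A B).card + (symmDiff B C).card := by
  calc (symmDiff A C).card ≤ (symmDiff A B ∪ symmDiff B C).card :=
        Finset.card_le_card (by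
          intro x hx
          simp only [Finset.mem_symmDiff, Finset.mem_union] at hx ⊢
          tauto)
    _ ≤ _ := Finset.card_union_le _ _

lemma card_le_length {S T : V} (w : G.Walk S T) : (symmDiff S.1 T.1).card ≤ w.length := by
  induction w with
  | nil => simp
  | @cons a b c h p ih =>
    have h1 : (symmDiff a.1 b.1).card = 1 := h
    have := card_triangle a.1 b.1 c.1
    simp only [SimpleGraph.Walk.length_cons]
    omega

lemma exists_walk (n : ℕ) : ∀ S T : V, (symmDiff S.1 T.1).card = n →
    ∃ w : G.Walk S T, w.length = n := by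
  induction n with
  | zero =>
    intro S T h
    have h1 : symmDiff S.1 T.1 = ∅ := Finset.card_eq_zero.mp h
    have h2 : S.1 = T.1 := symmDiff_eq_bot.mp h1
    have : S = T := Subtype.ext h2
    subst this
    exact ⟨SimpleGraph.Walk.nil, rfl⟩
  | succ n ih =>
    intro S T h
    by_cases hST : S.1 ⊆ T.1
    · -- add an element
      have hne : (T.1 \ S.1).Nonempty := by
        rw [Finset.nonempty_iff_ne_empty]
        intro he
        have : symmDiff S.1 T.1 = ∅ := by
          exact symmDiff_eq_bot.mpr
            (Finset.Subset.antisymm hST (Finset.sdiff_eq_empty_iff_subset.mp he))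
        rw [this] at h
        simp at h
      obtain ⟨i, hi⟩ := hne
      rw [Finset.mem_sdiff] at hi
      have hsub : insert i S.1 ⊆ T.1 := Finset.insert_subset hi.1 hST
      let S' : V := ⟨insert i S.1, P.mono hsub T.2⟩
      have hadj : G.Adj S S' := by
        show (symmDiff S.1 (insert i S.1)).card = 1
        have : symmDiff S.1 (insert i S.1) = {i} := by
          ext x
          simp only [Finset.mem_symmDiff, Finset.mem_insert, Finset.mem_singleton]
          constructor
          · rintro (⟨h1, h2⟩ | ⟨h1, h2⟩)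
            · exact absurd (Or.inr h1) h2
            · rcases h1 with h1 | h1
              · exact h1
              · exact absurd h1 h2
          · rintro rfl
            exact Or.inr ⟨Or.inl rfl, hi.2⟩
        rw [this]; simp
      have hcard : (symmDiff S'.1 T.1).card = n := by
        have : symmDiff S'.1 T.1 = (symmDiff S.1 T.1).erase i := by
          ext x
          simp only [S', Finset.mem_symmDiff, Finset.mem_insert, Finset.mem_erase]
          by_cases hx : x = i
          · subst hx
            simp [hi.1]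
          · simp [hx]
        rw [this, Finset.card_erase_of_mem, h]
        · rfl
        · rw [Finset.mem_symmDiff]; exact Or.inr ⟨hi.1, hi.2⟩
      obtain ⟨w, hw⟩ := ih S' T hcard
      exact ⟨SimpleGraph.Walk.cons hadj w, by simp [hw]⟩
    · rw [Finset.not_subset] at hST
      obtain ⟨i, hiS, hiT⟩ := hST
      have hsub : S.1.erase i ⊆ S.1 := Finset.erase_subset _ _
      let S' : V := ⟨S.1.erase i, P.mono hsub S.2⟩
      have hadj : G.Adj S S' := by
        show (symmDiff S.1 (S.1.erase i)).card = 1
        have : symmDiff S.1 (S.1.erase i) = {i} := by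
          ext x
          simp only [Finset.mem_symmDiff, Finset.mem_erase, Finset.mem_singleton]
          constructor
          · rintro (⟨h1, h2⟩ | ⟨h1, h2⟩)
            · by_contra hx
              exact h2 ⟨hx, h1⟩
            · exact absurd h1.2 h2
          · rintro rfl
            exact Or.inl ⟨hiS, fun h => h.1 rfl⟩
        rw [this]; simp
      have hcard : (symmDiff S'.1 T.1).card = n := by
        have : symmDiff S'.1 T.1 = (symmDiff S.1 T.1).erase i := by
          ext x
          simp only [S', Finset.mem_symmDiff, Finset.mem_erase]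
          by_cases hx : x = i
          · subst hx
            simp [hiT]
          · simp [hx]
        rw [this, Finset.card_erase_of_mem, h]
        · rfl
        · rw [Finset.mem_symmDiff]; exact Or.inl ⟨hiS, hiT⟩
      obtain ⟨w, hw⟩ := ih S' T hcard
      exact ⟨SimpleGraph.Walk.cons hadj w, by simp [hw]⟩

lemma dist_eq (S T : V) : G.dist S T = (symmDiff S.1 T.1).card := by
  obtain ⟨w, hw⟩ := exists_walk _ S T rfl
  apply le_antisymm
  · rw [← hw]; exact SimpleGraph.dist_le w
  · obtain ⟨p, hp⟩ := SimpleGraph.Reachable.exists_walk_length_eq_dist (⟨w⟩ : G.Reachable S T)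
    rw [← hp]; exact card_le_length p

/-- coordinates -/
noncomputable def e : Fin 64 ≃ I := (Fintype.equivFinOfCardEq (by simp)).symm

noncomputable def f (S : V) : Fin 64 → Bool := fun k => decide (e k ∈ S.1)

lemma ham (S T : V) : hammingDist (f S) (f T) = (symmDiff S.1 T.1).card := by
  unfold hammingDist
  apply Finset.card_bij (fun k _ => e k)
  · intro k hk
    simp only [Finset.mem_filter, Finset.mem_univ, true_and, f, ne_eq, decide_eq_decide] at hk
    rw [Finset.mem_symmDiff]
    tauto
  · intro a _ b _ h
    exact e.injective h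
  · intro i hi
    refine ⟨e.symm i, ?_, by simp⟩
    rw [Finset.mem_symmDiff] at hi
    simp only [Finset.mem_filter, Finset.mem_univ, true_and, f, ne_eq, decide_eq_decide,
      Equiv.apply_symm_apply]
    tauto

lemma f_inj : Function.Injective f := by
  intro S T h
  have h1 : hammingDist (f S) (f T) = 0 := by rw [h]; exact hammingDist_self _
  rw [ham] at h1
  exact Subtype.ext (symmDiff_eq_bot.mp (Finset.card_eq_zero.mp h1))


/-- spread of colours at a vertex is less than the degree -/
lemma spread (c : Sym2 V → ℕ)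
    (hint : ∀ (u v w : V) (k : ℕ), G.Adj u v → G.Adj u w →
            c s(u, v) ≤ k → k ≤ c s(u, w) → ∃ x : V, G.Adj u x ∧ c s(u, x) = k)
    (u : V) (N : Finset V) (hN : ∀ x, G.Adj u x → x ∈ N) (v w : V) (hv : G.Adj u v)
    (hw : G.Adj u w) : c s(u, w) + 1 ≤ c s(u, v) + N.card := by
  by_contra hlt
  push Not at hlt
  have hsub : Finset.Icc (c s(u, v)) (c s(u, w)) ⊆ N.image (fun x => c s(u, x)) := by
    intro k hk
    rw [Finset.mem_Icc] at hk
    obtain ⟨x, hx, hxk⟩ := hint u v w k hv hw hk.1 hk.2
    exact Finset.mem_image.mpr ⟨x, hN x hx, hxk⟩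
  have h1 := Finset.card_le_card hsub
  have h2 : (N.image (fun x => c s(u, x))).card ≤ N.card := Finset.card_image_le
  rw [Nat.card_Icc] at h1
  omega

def hub : V := ⟨∅, P_empty⟩
def pt (i : I) : V := ⟨{i}, P_single i⟩
def blk (i j : I) (h : i.1 = j.1 ∨ i.2 = j.2) : V := ⟨{i, j}, P_pair h⟩

lemma adj_hub_pt (i : I) : G.Adj hub (pt i) := by
  show (symmDiff (∅ : Finset I) {i}).card = 1
  have : symmDiff (∅ : Finset I) {i} = {i} := by
    ext x
    simp [Finset.mem_symmDiff]
  rw [this]; simp

lemma adj_pt_blk (i j : I) (h : i.1 = j.1 ∨ i.2 = j.2) (hij : i ≠ j) :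
    G.Adj (pt i) (blk i j h) := by
  show (symmDiff ({i} : Finset I) {i, j}).card = 1
  have : symmDiff ({i} : Finset I) {i, j} = {j} := by
    ext x
    simp only [Finset.mem_symmDiff, Finset.mem_insert, Finset.mem_singleton]
    constructor
    · rintro (⟨h1, h2⟩ | ⟨h1, h2⟩)
      · exact absurd (Or.inl h1) h2
      · tauto
    · rintro rfl
      exact Or.inr ⟨Or.inr rfl, fun h => hij h.symm⟩
  rw [this]; simp

lemma blk_comm (i j : I) (h : i.1 = j.1 ∨ i.2 = j.2) :
    blk i j h = blk j i (by tauto) := by
  apply Subtype.ext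
  simp [blk, Finset.pair_comm]

/-- neighbours of a point -/
lemma nbr_pt (i : I) (x : V) (hx : G.Adj (pt i) x) :
    x.1 = ∅ ∨ ∃ j, j ≠ i ∧ (i.1 = j.1 ∨ i.2 = j.2) ∧ x.1 = {i, j} := by
  have hx' : (symmDiff ({i} : Finset I) x.1).card = 1 := hx
  obtain ⟨k, hk⟩ := Finset.card_eq_one.mp hx'
  have hk' : ∀ y, (y ∈ ({i} : Finset I) ∧ y ∉ x.1 ∨ y ∈ x.1 ∧ y ∉ ({i} : Finset I)) ↔ y = k := by
    intro y
    rw [← Finset.mem_symmDiff, hk, Finset.mem_singleton]
  by_cases hki : k = i
  · left
    subst hki
    rw [Finset.eq_empty_iff_forall_notMem]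
    intro y hy
    have := hk' y
    by_cases hyk : y = k
    · subst hyk
      have := (hk' y).mpr rfl
      simp at this
      exact this hy
    · have := (hk' y).mp (Or.inr ⟨hy, by simpa using hyk⟩)
      exact hyk this
  · right
    have hkx : k ∈ x.1 := by
      have := (hk' k).mpr rfl
      simp [hki] at this
      exact this
    have hix : i ∈ x.1 := by
      by_contra hcon
      have := (hk' i).mp (Or.inl ⟨by simp, hcon⟩)
      exact hki this.symm
    have hxe : x.1 = {i, k} := by
      ext y
      simp only [Finset.mem_insert, Finset.mem_singleton]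
      constructor
      · intro hy
        by_contra hcon
        push Not at hcon
        exact hcon.2 ((hk' y).mp (Or.inr ⟨hy, by simpa using hcon.1⟩))
      · rintro (rfl | rfl)
        · exact hix
        · exact hkx
    refine ⟨k, hki, ?_, hxe⟩
    obtain ⟨a, b, hab, h⟩ := x.2
    have h1 : i ∈ ({a, b} : Finset I) := hab hix
    have h2 : k ∈ ({a, b} : Finset I) := hab hkx
    simp only [Finset.mem_insert, Finset.mem_singleton] at h1 h2
    rcases h1 with rfl | rfl <;> rcases h2 with rfl | rfl
    · exact absurd rfl hki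
    · exact h
    · tauto
    · exact absurd rfl hki

/-- the neighbour set of a point -/
noncomputable def Npt (i : I) : Finset V :=
  insert hub (((Finset.univ.filter (fun j : I => j ≠ i ∧ (i.1 = j.1 ∨ i.2 = j.2))).attach).image
    (fun j => blk i j.1 (Finset.mem_filter.mp j.2).2.2))

lemma Npt_card (i : I) : (Npt i).card ≤ 15 := by
  unfold Npt
  refine (Finset.card_insert_le _ _).trans ?_
  have h1 := Finset.card_image_le (s := (Finset.univ.filter
    (fun j : I => j ≠ i ∧ (i.1 = j.1 ∨ i.2 = j.2))).attach)
    (f := fun j => blk i j.1 (Finset.mem_filter.mp j.2).2.2)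
  rw [Finset.card_attach] at h1
  have h2 : (Finset.univ.filter (fun j : I => j ≠ i ∧ (i.1 = j.1 ∨ i.2 = j.2))).card ≤ 14 := by
    revert i
    decide
  omega

lemma mem_Npt (i : I) (x : V) (hx : G.Adj (pt i) x) : x ∈ Npt i := by
  unfold Npt
  rw [Finset.mem_insert]
  rcases nbr_pt i x hx with h | ⟨j, hji, hij, hxj⟩
  · left
    exact Subtype.ext h
  · right
    rw [Finset.mem_image]
    exact ⟨⟨j, by simp [hji, hij]⟩, Finset.mem_attach _ _, Subtype.ext hxj.symm⟩

/-- neighbours of a block -/
lemma nbr_blk (i j : I) (h : i.1 = j.1 ∨ i.2 = j.2) (hij : i ≠ j) (x : V)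
    (hx : G.Adj (blk i j h) x) : x ∈ ({pt i, pt j} : Finset V) := by
  have hx' : (symmDiff ({i, j} : Finset I) x.1).card = 1 := hx
  obtain ⟨k, hk⟩ := Finset.card_eq_one.mp hx'
  have hk' : ∀ y, (y ∈ ({i, j} : Finset I) ∧ y ∉ x.1 ∨ y ∈ x.1 ∧ y ∉ ({i, j} : Finset I)) ↔
      y = k := by
    intro y
    rw [← Finset.mem_symmDiff, hk, Finset.mem_singleton]
  have key : ∀ y, y ≠ k → (y ∈ x.1 ↔ (y = i ∨ y = j)) := by
    intro y hy
    have := hk' y
    simp only [Finset.mem_insert, Finset.mem_singleton] at this
    tauto
  have keyk : (k ∈ x.1 ↔ ¬ (k = i ∨ k = j)) := by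
    have := hk' k
    simp only [Finset.mem_insert, Finset.mem_singleton] at this
    tauto
  rw [Finset.mem_insert, Finset.mem_singleton]
  by_cases hki : k = i
  · right
    apply Subtype.ext
    ext y
    show y ∈ x.1 ↔ y ∈ ({j} : Finset I)
    rw [Finset.mem_singleton]
    by_cases hy : y = k
    · subst hy
      rw [keyk]
      constructor
      · intro h'; exact absurd (Or.inl hki) h'
      · intro h'; exact absurd (hki.symm.trans h') hij
    · rw [key y hy]
      constructor
      · rintro (h' | h')
        · exact absurd (h'.trans hki.symm) hy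
        · exact h'
      · intro h'; exact Or.inr h'
  · by_cases hkj : k = j
    · left
      apply Subtype.ext
      ext y
      show y ∈ x.1 ↔ y ∈ ({i} : Finset I)
      rw [Finset.mem_singleton]
      by_cases hy : y = k
      · subst hy
        rw [keyk]
        constructor
        · intro h'; exact absurd (Or.inr hkj) h'
        · intro h'; exact absurd (h'.symm.trans hkj) hij
      · rw [key y hy]
        constructor
        · rintro (h' | h')
          · exact h'
          · exact absurd (h'.trans hkj.symm) hy
        · intro h'; exact Or.inl h'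
    · exfalso
      have hkx : k ∈ x.1 := keyk.mpr (by tauto)
      have hix : i ∈ x.1 := (key i (Ne.symm hki)).mpr (Or.inl rfl)
      have hjx : j ∈ x.1 := (key j (Ne.symm hkj)).mpr (Or.inr rfl)
      obtain ⟨a, b, hab, -⟩ := x.2
      have h1 := hab hkx
      have h2 := hab hix
      have h3 := hab hjx
      simp only [Finset.mem_insert, Finset.mem_singleton] at h1 h2 h3
      rcases h1 with rfl | rfl <;> rcases h2 with rfl | rfl <;> rcases h3 with rfl | rfl <;>
        simp_all

/-- colour difference for collinear points -/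
lemma step (c : Sym2 V → ℕ)
    (hint : ∀ (u v w : V) (k : ℕ), G.Adj u v → G.Adj u w →
            c s(u, v) ≤ k → k ≤ c s(u, w) → ∃ x : V, G.Adj u x ∧ c s(u, x) = k)
    (i j : I) (h : i.1 = j.1 ∨ i.2 = j.2) :
    c s(hub, pt i) ≤ c s(hub, pt j) + 29 := by
  by_cases hij : i = j
  · subst hij; omega
  have h1 := spread c hint (pt i) (Npt i) (mem_Npt i) (blk i j h) hub
    (adj_pt_blk i j h hij) (adj_hub_pt i).symm
  have h' : j.1 = i.1 ∨ j.2 = i.2 := by tauto
  have hb : blk i j h = blk j i h' := blk_comm i j h
  have hadj2 : G.Adj (pt j) (blk i j h) := by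
    rw [hb]; exact adj_pt_blk j i h' (Ne.symm hij)
  have h2 := spread c hint (blk i j h) {pt i, pt j} (nbr_blk i j h hij) (pt j) (pt i)
    hadj2.symm (adj_pt_blk i j h hij).symm
  have h3 := spread c hint (pt j) (Npt j) (mem_Npt j) hub (blk i j h)
    (adj_hub_pt j).symm hadj2
  have c1 := Npt_card i
  have c2 := Npt_card j
  have c3 : ({pt i, pt j} : Finset V).card ≤ 2 := Finset.card_le_two
  rw [Sym2.eq_swap (a := pt i) (b := hub), Sym2.eq_swap (a := pt i) (b := blk i j h)] at h1
  rw [Sym2.eq_swap (a := pt j) (b := hub)] at h3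
  rw [Sym2.eq_swap (a := blk i j h) (b := pt j)] at h2
  omega

lemma far (c : Sym2 V → ℕ)
    (hint : ∀ (u v w : V) (k : ℕ), G.Adj u v → G.Adj u w →
            c s(u, v) ≤ k → k ≤ c s(u, w) → ∃ x : V, G.Adj u x ∧ c s(u, x) = k)
    (i j : I) : c s(hub, pt i) ≤ c s(hub, pt j) + 58 := by
  have h1 := step c hint i (i.1, j.2) (Or.inl rfl)
  have h2 := step c hint (i.1, j.2) j (Or.inr rfl)
  omega

theorem main :
    ¬ (∀ (V : Type) [Fintype V] (G : SimpleGraph V),
      (∃ u v : V, G.Adj u v) →
      (∃ (n : ℕ) (f : V → (Fin n → Bool)),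
          Function.Injective f ∧ ∀ u v : V, hammingDist (f u) (f v) = G.dist u v) →
      ∃ (t : ℕ) (c : Sym2 V → ℕ),
        1 ≤ t ∧
        (∀ u v : V, G.Adj u v → 1 ≤ c s(u, v) ∧ c s(u, v) ≤ t) ∧
        (∀ k : ℕ, 1 ≤ k → k ≤ t → ∃ u v : V, G.Adj u v ∧ c s(u, v) = k) ∧
        (∀ u v w : V, G.Adj u v → G.Adj u w → v ≠ w → c s(u, v) ≠ c s(u, w)) ∧
        (∀ (u v w : V) (k : ℕ), G.Adj u v → G.Adj u w →
            c s(u, v) ≤ k → k ≤ c s(u, w) → ∃ x : V, G.Adj u x ∧ c s(u, x) = k)) := by
  intro hall
  obtain ⟨t, c, -, -, -, hprop, hint⟩ := hall V G ⟨hub, pt (0, 0), adj_hub_pt _⟩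
    ⟨64, f, f_inj, fun u v => by rw [ham, dist_eq]⟩
  -- the colour of the edges at the hub
  let g : I → ℕ := fun i => c s(hub, pt i)
  have hg : Function.Injective g := by
    intro i j hij
    by_contra hne
    refine hprop hub (pt i) (pt j) (adj_hub_pt i) (adj_hub_pt j) ?_ hij
    intro h
    have h1 : ({i} : Finset I) = {j} := congrArg Subtype.val h
    exact hne (Finset.singleton_injective h1)
  obtain ⟨j, -, hj⟩ := Finset.exists_min_image (Finset.univ : Finset I) g ⟨(0, 0), by simp⟩
  have hsub : (Finset.univ : Finset I).image g ⊆ Finset.Icc (g j) (g j + 58) := by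
    intro k hk
    obtain ⟨i, -, rfl⟩ := Finset.mem_image.mp hk
    rw [Finset.mem_Icc]
    exact ⟨hj i (Finset.mem_univ _), far c hint i j⟩
  have h1 := Finset.card_le_card hsub
  rw [Finset.card_image_of_injective _ hg, Nat.card_Icc] at h1
  have h2 : (Finset.univ : Finset I).card = 64 := by simp
  omega

end Pool.Agent.H68.PC
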